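import Pool.Agent.W900.CH.NELev
import Pool.Agent.H591R3.PHG.Cover
import Pool.Agent.H591R3.PHG.LangSig

/-!
# How many strings of a random oracle have to be changed to collapse the polynomial hierarchy?

The number of changes is measured by a function `g`: the oracle `A` is obtained from `O` by changing,
for all large `n`, at most `g n` of the strings of length at most `n`. If `g n ≤ 2 ^ (n ^ ε)` for
every `ε > 0` and infinitely many `n`, then for almost every oracle `O` the polynomial hierarchy is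
infinite, even `Σ_{k+1}^A ⊄ Σ_k^A / poly` for all `k`, relative to all oracles `A` that are obtained
from `O` by at most `g` changes, however these changes depend on `O`.
Otherwise every oracle `O` can be changed, by at most `g` changes, into an oracle relative to which
the hierarchy collapses to `P` (even `PSPACE = P`), and also into an oracle relative to which it
collapses exactly to its first level (even `P ≠ NP = PSPACE = EXP`).

So the threshold is exactly at the functions which are not subexponential.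
-/

set_option autoImplicit false

namespace Pool.Agent.Results.MP_28250c_lc.ChangedStrings

open Pool.Agent.NPC Pool.Agent.H620R2.Gauge Pool.Agent.W900.CH Pool.Agent.H591R3.PHG
open Pool.Agent.H628R3.RO (randomOracle)
open MeasureTheory

theorem result (g : ℕ → ℝ) :
    ((∀ ε : ℝ, 0 < ε → ∃ᶠ n : ℕ in Filter.atTop, g n ≤ 2 ^ (n : ℝ) ^ ε) →
      ∀ᵐ O ∂randomOracle, ∀ A : Oracle, Close g O A →
        ∀ k, ∃ L, IsSig A (k + 1) L ∧ ¬ IsSigPoly A k L) ∧
    ((¬ ∀ ε : ℝ, 0 < ε → ∃ᶠ n : ℕ in Filter.atTop, g n ≤ 2 ^ (n : ℝ) ^ ε) →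
      ∀ O : Oracle,
        (∃ A : Oracle, Close g O A ∧ (∀ k L, IsSig A k L → IsSig A 0 L) ∧
          ∀ L, IsPSPACE A L → IsP A L) ∧
        ∃ A : Oracle, Close g O A ∧ (∀ k L, IsSig A k L → IsSig A 1 L) ∧
          (∃ L, IsSig A 1 L ∧ ¬ IsSig A 0 L) ∧
          ∀ L, IsPSPACE A L ∨ IsEXP A L → IsNP A L) := by
  have h0 : ∀ (A : Oracle) (L : Set (List Bool)), IsP A L → IsSig A 0 L :=
    fun A L h => IsSig.of_isP h 0
  have h01 : ∀ (A : Oracle) (L : Set (List Bool)), IsSig A 0 L → IsP A L := by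
    rintro A L ⟨V, p, hV, hL⟩
    exact ⟨V, hV, hL⟩
  have h1 : ∀ (A : Oracle) (L : Set (List Bool)), IsNP A L ↔ IsSig A 1 L := fun A L => isNP_iff
  refine ⟨fun hg => ?_, fun hg O => ⟨?_, ?_⟩⟩
  · have hS : ∀ f : ℕ → ℝ, (∀ ε : ℝ, 0 < ε → ∃ᶠ N : ℕ in Filter.atTop,
        f N ≤ 2 ^ (Real.logb 2 N) ^ ε) →
        Null f {A : Oracle | ∃ k, ∀ L, IsSig A (k + 1) L → IsSigPoly A k L} := by
      intro f hf
      refine null_of_frequently2 f hf _ fun A hA => ?_
      obtain ⟨k, hk⟩ := hA
      exact ⟨k, hk _ (lang_sig A k)⟩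
    filter_upwards [ae_far_P hS hg] with O hO A hA
    have := hO A hA
    push Not at this
    exact this
  · obtain ⟨A, h2, h3⟩ := exists_close_PSPACE hg O
    have h4 : ∀ L, IsPSPACE A L → IsP A L := fun L hL => isP_of_reduces (h3 L hL)
    exact ⟨A, h2, fun k L hL => h0 A L (h4 L hL.isPH.isPSPACE), h4⟩
  · obtain ⟨A, h2, h3, L, hL, hL'⟩ := exists_close_ZPP hg O
    refine ⟨A, h2, fun k L hL => (h1 A L).1 (h3 L (Or.inr hL.isPH.isPSPACE)).isNP,
      ⟨L, (h1 A L).1 hL.isNP, fun h => hL' (h01 A L h)⟩, ?_⟩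
    rintro L (hL | hL)
    · exact (h3 L (Or.inr hL)).isNP
    · exact (h3 L (Or.inl hL)).isNP

end Pool.Agent.Results.MP_28250c_lc.ChangedStrings
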