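import Pool.Agent.W908.J.J12

set_option autoImplicit false

/-!
# `NP` easy on average, `Σ_2` exponentially hard on average
-/

namespace Pool.Agent.Results.MP_28250c_lc.EasyNPHardSigmaTwo

open Pool.Agent.H620R2.Gauge Pool.Agent.H591R3.PHG Pool.Agent.W908 Pool.Agent.W908.RS
  Pool.Agent.W908.HS

/-- There is an oracle `O` relative to which
(1) every language in `NP = Σ_1` is easy on average under every distribution that can be sampled in
polynomial time relative to `O`, with error at most `1 / (n + 1) ^ c`, for every `c` and every `n`;
(2) some language in `Σ_2` is exponentially hard on average even with advice of exponential length: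
for every `D` in polynomial time relative to `O` there is `d` such that for every `n ≥ d` and every
string `h` of length at most `2 ^ (n / d)`, the answer `D ⟨x, h⟩` is right for at most the fraction
`1 / 2 + (1 / 2) ^ (n / d)` of the inputs `x` of length `n`. -/
theorem result : ∃ O : Oracle,
    (∀ L : Set (List Bool), IsSig O 1 L → ∀ F : List Bool → List Bool, IsFP O F →
      ∀ (q : Polynomial ℕ) (c : ℕ), EasyOnSamples O L F q c) ∧
    ∃ L : Set (List Bool), IsSig O 2 L ∧ ExpHardOnAverage O L :=
  Pool.Agent.W908.KS.JS.mainJ

end Pool.Agent.Results.MP_28250c_lc.EasyNPHardSigmaTwo
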