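import Pool.Agent.W901.PX.LvD

/-!
# The strictness of the polynomial hierarchy and the prediction of answers

`SigmaP k` are the levels `Σ_k` of the polynomial hierarchy (alternating polynomially bounded
quantifiers in front of polynomial-time predicates), `InPH` is their union and `RedTo` is
polynomial-time many-one reducibility.

A set `A` is `(f, ε)`-predictable in `Σ_k` (`PredIn (SigmaP k) f ε A`) if some function `g` with
values of polynomial length and graph in `Σ_k` computes, for every nonempty list of `m` questions of
length at most `m ^ ε` about membership in `A` and for some hint of `O(log n)` bits, which may depend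
on the list in any way, predictions for a nonempty subset of `s` of the questions such that the
number of right predictions and the number of wrong predictions differ by at least `f m * √ s`. It is
fully `f`-predictable in `Σ_k` if there are, without hints, such predictions for all questions and
all lists of questions of any length.

The theorem, for `ε > 0` and functions `f` with `f m ≤ √ m`.

* Let `f m / √ (log m)` tend to infinity. If, for some `k ≥ 1`, every set in `Σ_k` is reducible to
  some set which is `(f, ε)`-predictable in `Σ_k` then `PH = Σ_{k+1}`. If `Σ_{k+1} = Σ_k` then every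
  set in `PH` is fully `f`-predictable in `Σ_k`. Hence `Σ_k ⊊ Σ_{k+1}` for all `k` iff for every
  `k ≥ 1` some set in `Σ_k` is not reducible to any set which is `(f, ε)`-predictable in `Σ_k` iff
  for every `k ≥ 1` some set in `Σ_k` is not fully `f`-predictable in `Σ_k`.
* If `f m ≤ c √ (log m)` for some constant `c` then every set whatsoever is `(f, ε)`-predictable in
  every `Σ_k`.

Proof of the first part. Online learning turns the predictions for all hints into an advice string
of polynomial length with which all questions up to a given length are answered correctly; the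
predictor being a total function with graph in `Σ_k`, the answers for a given string are computable
in `Σ_k ∩ Π_k`, also when the advice is wrong. For a set in `Σ_{j+1}`, `j < k`, one takes the set of
the pairs of a question and a prefix of a witness, an advice string for it and one for the matrix,
which is in `Π_j`, and checks that they are locally consistent: the answer for a prefix is yes iff the
matrix accepts it or the answer for one of the two longer prefixes is yes. This is a test in `Π_k`, and
consistency implies correctness. Hence a formula `∃ ∀ Σ_k` becomes a formula `∃ Π_k`, so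
`Σ_{k+2} ⊆ Σ_{k+1}`.
-/

set_option autoImplicit false

namespace Pool.Agent.Results.MP_28250c_lc.ExactThreshold

open Filter Pool.Agent.NPC Pool.Agent.W901.NU Pool.Agent.W901.PX
open Pool.Agent.W903.GP (InPH SigmaP sigma_mono)

/-- **The threshold law for the levels of the polynomial hierarchy.** -/
theorem result (f : ℕ → ℝ) (ε : ℝ) (hε : 0 < ε) (hf : ∀ m : ℕ, 1 ≤ m → f m ≤ Real.sqrt m) :
    (Tendsto (fun m : ℕ => f m / Real.sqrt (Real.log m)) atTop atTop →
      (∀ k : ℕ, 1 ≤ k →
        (∀ L : Set (List Bool), SigmaP k L →
          ∃ A : Set (List Bool), RedTo L A ∧ PredIn (SigmaP k) f ε A) →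
        ∀ L : Set (List Bool), InPH L → SigmaP (k + 1) L) ∧
      (∀ k : ℕ, (∀ L : Set (List Bool), SigmaP (k + 1) L → SigmaP k L) →
        ∀ A : Set (List Bool), InPH A → FullyPredIn (SigmaP k) f A) ∧
      List.TFAE
      [∀ k : ℕ, ∃ L : Set (List Bool), SigmaP (k + 1) L ∧ ¬ SigmaP k L,
        ∀ k : ℕ, 1 ≤ k → ∃ L : Set (List Bool), SigmaP k L ∧
          ∀ A : Set (List Bool), RedTo L A → ¬ PredIn (SigmaP k) f ε A,
        ∀ k : ℕ, 1 ≤ k → ∃ A : Set (List Bool), SigmaP k A ∧ ¬ FullyPredIn (SigmaP k) f A]) ∧
    (∀ c : ℝ, (∀ m : ℕ, 1 ≤ m → f m ≤ c * Real.sqrt (Real.log m)) →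
      ∀ (k : ℕ) (A : Set (List Bool)), PredIn (SigmaP k) f ε A) := by
  refine ⟨fun h => ?_, fun c h k A => sigma_predIn_of_le hf h k A⟩
  have h1 : ∀ k : ℕ, 1 ≤ k →
      (∀ L : Set (List Bool), SigmaP k L →
        ∃ A : Set (List Bool), RedTo L A ∧ PredIn (SigmaP k) f ε A) →
      ∀ L : Set (List Bool), InPH L → SigmaP (k + 1) L := by
    intro k hk h2
    obtain ⟨k, rfl⟩ : ∃ j, k = j + 1 := ⟨k - 1, by omega⟩
    exact level_law hε h h2
  refine ⟨h1, fun k hk A hA => fully_of_collapse hf hk A hA, ?_⟩
  tfae_have 1 → 2 := by
    intro h2
    by_contra h3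
    push Not at h3
    obtain ⟨k, hk, h3⟩ := h3
    obtain ⟨L, hL1, hL2⟩ := h2 (k + 1)
    exact hL2 (h1 k hk h3 L ⟨k + 1 + 1, hL1⟩)
  tfae_have 2 → 3 := by
    intro h2 k hk
    obtain ⟨L, hL, hA⟩ := h2 k hk
    exact ⟨L, hL, fun hF => hA L (redTo_refl L) (predIn_of_fully hF ε)⟩
  tfae_have 3 → 1 := by
    intro h2
    by_contra h3
    push Not at h3
    obtain ⟨k, h3⟩ := h3
    obtain ⟨A, hA, hn⟩ := h2 (k + 1) (by omega)
    exact hn (fully_of_collapse hf (fun L hL =>
      sigma_mono (Nat.le_succ k) (ph_of_step h3 L ⟨_, hL⟩)) A ⟨_, hA⟩)
  tfae_finish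

end Pool.Agent.Results.MP_28250c_lc.ExactThreshold
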