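import Pool.Agent.W908.N.N13

set_option autoImplicit false

/-!
# An oracle with `NP = UP` and a strict polynomial hierarchy
-/

namespace Pool.Agent.Results.MP_28250c_lc.UPEqualsNPInfinitePH

open Pool.Agent.H620R2.Gauge Pool.Agent.W908
open Pool.Agent.H591R3.PHG (IsSig IsSigPoly)

/-- There is an oracle `O` relative to which `NP = UP` (every language in `NP` has a verifier with
at most one certificate for every input) and, nevertheless, the polynomial hierarchy is strict at
every level: for every `k` there is a language in the level `Σ_{k+1}` relative to `O` that is not
in the level `Σ_k` relative to `O`, not even with polynomial advice. -/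
theorem result : ∃ O : Oracle, (∀ L : Set (List Bool), IsNP O L ↔ IsUP O L) ∧
    ∀ k : ℕ, ∃ L : Set (List Bool), IsSig O (k + 1) L ∧ ¬ IsSigPoly O k L :=
  UPH.main2

end Pool.Agent.Results.MP_28250c_lc.UPEqualsNPInfinitePH
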