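import Pool.Agent.H611R3.AltNeg

/-!
# An analogue of the strictness of the polynomial hierarchy, for circuits with few NOT gates

`AltMono e d G s F` says that the predicate `F` on bit strings can be written with `d` alternating
blocks of quantifiers over `G` bits each (the first block is existential if `e = true`, universal
if `e = false`) in front of functions `f z` which, for all values `z` of the quantified bits,
have monotone circuits with at most `s` AND and OR gates. The dependence on the quantified bits is
arbitrary. `BPAltNeg e d G s K F` says the same, but with an additional probabilistic quantifier in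
front (arbitrarily many random bits, two-sided error one third) and with functions which are
computed by at most `s` AND and OR gates from constants, the input bits `x` and the wires of one of
finitely many circuits `C i` which read only `x` and contain few non-monotone gates (arbitrary
gates, of arbitrary fan-in, for instance NOT gates): the sum over all `i` of `∏ (a + 1) - 1`, the
product ranging over these gates of `C i`, `a` being the fan-in, is less than `K`. For instance,
`K = 2 ^ t' * (2 ^ t - 1) + 1` if there are `t` NOT gates, which may be fed by gates that depend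
on `x` and on `t'` of the random and quantified bits, if all other gates are monotone in `x`.

The theorem says that the hierarchy given by the number of alternations is strict at every level:
the explicit monotone predicate `BigTower e M d m v k` (given are `M * m ^ d` graphs on `v`
vertices, and the predicate is `Q₁ (j, i₁) Q₂ i₂ ... Q_d i_d`: the graph number `(j, i)` has a
clique with `k` vertices, if `Q_d` is `∃`, or no independent set with `k` vertices, if `Q_d` is
`∀`) is given by `d` alternating blocks of `log M + log m + v + 2` bits, the first of type `e`, in
front of functions with monotone circuits with `k ^ 2` gates; hence it is given by `d + 1` such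
blocks, the first of any type. But `d` blocks with the first one of the other type do not suffice,
not even with `m / 21 - 3` bits in every block (`m` is arbitrary), with random bits in addition,
with `2 ^ (√k - 1)` gates, and with `K ≤ M`. Here `v = 200 k ^ 4`.
-/

set_option autoImplicit false

namespace Pool.Agent.Results.MP_28250c_lc.ZAlternationsNegations

open Pool.Agent.H611R2 Pool.Agent.H611R3

theorem altMono_succ {ι : Type} {e : Bool} {d G s : ℕ} {F : (ι → Bool) → Prop}
    (h : AltMono e d G s F) : ∀ e' : Bool, AltMono e' (d + 1) G s F := by
  obtain ⟨f, hf, hF⟩ := h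
  intro e'
  by_cases he : e' = e
  · subst he
    refine ⟨fun z => f (Fin.init z), fun z => hf _, fun x => ?_⟩
    rw [hF x]
    exact (alt_init (R := fun w => f w x = true)).symm
  · have he' : e' = !e := by
      revert he
      cases e <;> cases e' <;> simp
    subst he'
    refine ⟨fun z => f (Fin.tail z), fun z => hf _, fun x => ?_⟩
    rw [hF x]
    cases e
    · change _ ↔ ∃ u : Fin G → Bool, Alt false d (fun w : Fin d → Fin G → Bool =>
        f (Fin.tail (Fin.cons u w : Fin (d + 1) → Fin G → Bool)) x = true)
      simp only [Fin.tail_cons, exists_const]
    · change _ ↔ ∀ u : Fin G → Bool, Alt true d (fun w : Fin d → Fin G → Bool =>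
        f (Fin.tail (Fin.cons u w : Fin (d + 1) → Fin G → Bool)) x = true)
      simp only [Fin.tail_cons, forall_const]

theorem result (e : Bool) (d r m M : ℕ) (hd : 1 ≤ d) (hr : 2 ≤ r) (hm : 1 ≤ m) (hM : 1 ≤ M) :
    (AltMono e d (Nat.size M + (Nat.size m + 200 * r ^ 8)) (r ^ 4)
      (BigTower e M d m (200 * r ^ 8) (r ^ 2)) ∧
     ∀ e' : Bool, AltMono e' (d + 1) (Nat.size M + (Nat.size m + 200 * r ^ 8)) (r ^ 4)
      (BigTower e M d m (200 * r ^ 8) (r ^ 2))) ∧
    ∀ G s K : ℕ, 21 * (G + 3) ≤ m → 2 * s < 2 ^ r → K ≤ M →
      ¬ BPAltNeg (!e) d G s K (BigTower e M d m (200 * r ^ 8) (r ^ 2)) := by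
  have hup : AltMono e d (Nat.size M + (Nat.size m + 200 * r ^ 8)) (r ^ 4)
      (BigTower e M d m (200 * r ^ 8) (r ^ 2)) := by
    have h := upper_big (e := e) (v := 200 * r ^ 8) (k := r ^ 2) (m := m)
      (G := Nat.size M + (Nat.size m + 200 * r ^ 8)) hd hm hM le_rfl
    have h2 : (r ^ 2) ^ 2 = r ^ 4 := by ring
    rwa [h2] at h
  refine ⟨⟨hup, altMono_succ hup⟩, fun G s K hG hs hK h => ?_⟩
  have hc : 2 ≤ r ^ 2 := by nlinarith
  have hcv : r ^ 2 ≤ 200 * r ^ 8 := by
    calc r ^ 2 ≤ r ^ 8 := Nat.pow_le_pow_right (by omega) (by omega)
      _ ≤ 200 * r ^ 8 := by omega
  exact bp_lower hd hr hG hs e (bp_transfer_tower hm hc hcv h hK)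

end Pool.Agent.Results.MP_28250c_lc.ZAlternationsNegations
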