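import Pool.Agent.H620R2.Gauge.U1
import Pool.Agent.W900.BC.Pos
import Pool.Agent.W900.BC.Neg4

/-!
# The polynomial hierarchy relative to an oracle tossed with biased coins

The oracle is tossed bit by bit (in the order of length); the coin for a string of length `n` may
depend in an arbitrary way on all the previous tosses, and it has a bias of at most `ε n`. If in
infinitely many windows `n, ..., n ^ c` the bias is at most `1 / n ^ c`, for every `c`, then the
hierarchy is infinite with probability `1`; if not, there are such coins with which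
`P = PSPACE` with probability `1`.
-/

set_option autoImplicit false

namespace Pool.Agent.Results.MP_28250c_lc.ZBiasedCoins

open MeasureTheory Pool.Agent.NPC Pool.Agent.H620R2.Gauge Pool.Agent.H591R3.PHG Pool.Agent.W900.BC

theorem result (ε : ℕ → ℝ) (hε : ∀ n, 0 ≤ ε n) :
    (Small ε → ∀ μ : Measure Oracle, IsProbabilityMeasure μ → Biased ε μ →
      ∀ᵐ A ∂μ, ∀ k, ∃ L, IsSig A (k + 1) L ∧ ¬ IsSig A k L) ∧
    (¬ Small ε → ∃ μ : Measure Oracle, IsProbabilityMeasure μ ∧ Biased ε μ ∧
      ∀ᵐ A ∂μ, ∀ L, IsPSPACE A L → IsP A L) ∧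
    (∀ k, (∀ μ : Measure Oracle, IsProbabilityMeasure μ → Biased ε μ →
      ∀ᵐ A ∂μ, ∃ L, IsSig A (k + 1) L ∧ ¬ IsSig A k L) ↔ Small ε) := by
  have h1 : Small ε → ∀ μ : Measure Oracle, IsProbabilityMeasure μ → Biased ε μ →
      ∀ᵐ A ∂μ, ∀ k, ∃ L, IsSig A (k + 1) L ∧ ¬ IsSig A k L := by
    intro hs μ hμ hb
    haveI := hμ
    filter_upwards [pos_part hs μ hb] with A hA k
    exact ⟨lang k A, lang_sig A k, hA k⟩
  refine ⟨h1, neg_part hε, fun k => ⟨fun h => ?_, fun hs μ hμ hb => ?_⟩⟩
  · by_contra hs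
    obtain ⟨μ, hμ, hb, hA⟩ := neg_part hε hs
    haveI := hμ
    have h2 : ∀ᵐ A ∂μ, False := by
      filter_upwards [h μ hμ hb, hA] with A h3 h4
      obtain ⟨L, h5, h6⟩ := h3
      exact h6 (IsSig.of_isP (h4 L h5.isPH.isPSPACE) k)
    have h3 := h2.exists
    exact h3.elim fun _ h => h
  · filter_upwards [h1 hs μ hμ hb] with A hA
    exact hA k

end Pool.Agent.Results.MP_28250c_lc.ZBiasedCoins
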