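import Pool.Agent.W900.IE.Inf

/-!
# The polynomial hierarchy relative to random oracles with independent elements

Every string `x` is put in the oracle with a probability `p x`, independently; the probabilities
are arbitrary, except that the set of the strings with `p x > 1/2` is in the polynomial hierarchy.
For almost every oracle, the hierarchy relative to it is infinite if and only if the hierarchy is
infinite or the expected number of the strings of length `n` for which the less probable
alternative occurs is not bounded by a polynomial.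
-/

set_option autoImplicit false

namespace Pool.Agent.Results.MP_28250c_lc.ZIndependentElements

open MeasureTheory Pool.Agent.NPC Pool.Agent.H620R2.Gauge Pool.Agent.H591R3.PHG Pool.Agent.W900.IE

theorem result (p : List Bool → unitInterval)
    (hB : IsPH (fun _ => false) {x | (1 / 2 : ℝ) < p x}) :
    ∀ᵐ A ∂(indep p), (InfinitePH A ↔
      InfinitePH (fun _ => false) ∨ ¬ ∃ c : ℕ, ∀ n : ℕ, dev p n ≤ (n : ℝ) ^ c + c) := by
  obtain ⟨V, P, k, hV, hL⟩ := hB
  have hsig : IsSig emp k {x | (1 / 2 : ℝ) < p x} := ⟨V, P, hV, hL⟩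
  have htl : TL emp (k + 2) (fun q : List Bool => modeB p q = true) :=
    (lev_of_isSig hsig).typed.congr fun q => by simp [modeB]
  by_cases hc : ∃ c : ℕ, ∀ n : ℕ, dev p n ≤ (n : ℝ) ^ c + c
  · have hc' := hc
    obtain ⟨c, hc'⟩ := hc'
    filter_upwards [ae_sparse p c hc'] with A hA
    have h1 := infinite_iff_of_sparse (A := A) (B := modeB p) (fun q => by
      cases A q <;> cases modeB p q <;> rfl) hA htl
    constructor
    · intro h
      exact Or.inl (h1.1 h)
    · rintro (h | h)
      · exact h1.2 h
      · exact absurd hc h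
  · have hinf : ∀ n₀ c : ℕ, ∃ n, n₀ ≤ n ∧ (n : ℝ) ^ c + c ≤ dev p n := by
      intro n₀ c
      push Not at hc
      obtain ⟨n, hn⟩ := hc (c + 2 ^ n₀ + 1)
      have hdev : dev p n ≤ 2 ^ n := by
        have h1 : dev p n ≤ ∑ _v : Fin n → Bool, (1 : ℝ) :=
          Finset.sum_le_sum fun v _ => (lop_le p (List.ofFn v)).trans (by norm_num)
        refine h1.trans (le_of_eq ?_)
        simp
      push_cast at hn
      have hn0 : n₀ ≤ n := by
        by_contra hcon
        push Not at hcon
        have h2 : (2 : ℝ) ^ n ≤ 2 ^ n₀ := pow_le_pow_right₀ (by norm_num) hcon.le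
        have h3 : (0 : ℝ) ≤ (n : ℝ) ^ (c + 2 ^ n₀ + 1) := by positivity
        have h4 : (0 : ℝ) ≤ c := by positivity
        linarith
      refine ⟨n, hn0, ?_⟩
      have h2 : (1 : ℝ) ≤ 2 ^ n₀ := one_le_pow₀ (by norm_num)
      rcases Nat.eq_zero_or_pos n with h0 | h0
      · subst h0
        have h3 : ((0 : ℕ) : ℝ) ^ c ≤ 1 := by
          rw [Nat.cast_zero]
          exact pow_le_one₀ le_rfl zero_le_one
        have h4 : (0 : ℝ) ≤ ((0 : ℕ) : ℝ) ^ (c + 2 ^ n₀ + 1) := by positivity
        linarith
      · have h3 : (n : ℝ) ^ c ≤ (n : ℝ) ^ (c + 2 ^ n₀ + 1) :=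
          pow_le_pow_right₀ (by exact_mod_cast h0)
            ((Nat.le_add_right c (2 ^ n₀)).trans (Nat.le_add_right _ 1))
        linarith
    filter_upwards [ae_not_sig p hinf] with A hA
    constructor
    · intro _
      exact Or.inr hc
    · intro _
      exact infinite_of_not_sig htl hA

end Pool.Agent.Results.MP_28250c_lc.ZIndependentElements
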